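import Mathlib

set_option autoImplicit false
open Matrix Complex
open scoped ComplexOrder Kronecker

namespace Pool.Agent.Results.MP_9a8b60_mp.SepDPT

abbrev Op (d : ℕ) := Matrix (Fin d) (Fin d) ℂ
abbrev Op2 (d : ℕ) := Matrix (Fin d × Fin d) (Fin d × Fin d) ℂ

/-- Density matrices. -/
def IsState {ι : Type} [Fintype ι] (ρ : Matrix ι ι ℂ) : Prop := ρ.PosSemidef ∧ ρ.trace = 1

/-- Marginal on the first factor. -/
def m1 {d : ℕ} (τ : Op2 d) : Op d := Matrix.of fun i j => ∑ k, τ (i, k) (j, k)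

/-- Marginal on the second factor. -/
def m2 {d : ℕ} (τ : Op2 d) : Op d := Matrix.of fun i j => ∑ k, τ (k, i) (k, j)

/-- The transport cost of a coupling. -/
noncomputable def cost {d N : ℕ} (H : Fin N → Op d) (τ : Op2 d) : ℝ :=
  1 / 2 * ∑ n, (τ * ((H n)ᵀ ⊗ₖ (1 : Op d) - (1 : Op d) ⊗ₖ H n) ^ 2).trace.re

/-- The De Palma-Trevisan cost. -/
noncomputable def W {d N : ℕ} (H : Fin N → Op d) (ρ σ : Op d) : ℝ :=
  sInf {c | ∃ τ : Op2 d, IsState τ ∧ m1 τ = ρᵀ ∧ m2 τ = σ ∧ c = cost H τ}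

/-- The projector onto a vector. -/
def op {ι : Type} (v : ι → ℂ) : Matrix ι ι ℂ := vecMulVec v (star v)

/-- The separable cost. -/
noncomputable def Wsep {d N : ℕ} (H : Fin N → Op d) (ρ σ : Op d) : ℝ :=
  sInf {c | ∃ (m : ℕ) (p : Fin m → ℝ) (Ψ Φ : Fin m → Fin d → ℂ), (∀ k, 0 < p k) ∧ ∑ k, p k = 1 ∧
    (∀ k, star (Ψ k) ⬝ᵥ Ψ k = 1) ∧ (∀ k, star (Φ k) ⬝ᵥ Φ k = 1) ∧
    ∑ k, (p k : ℂ) • op (Ψ k) = ρ ∧ ∑ k, (p k : ℂ) • op (Φ k) = σ ∧
    c = ∑ k, p k * W H (op (Ψ k)) (op (Φ k))}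

/-- The modified version of a cost. -/
noncomputable def modi {d : ℕ} (F : Op d → Op d → ℝ) (ρ σ : Op d) : ℝ :=
  F ρ σ - 1 / 2 * (F ρ ρ + F σ σ)

section gen
variable {d N : ℕ}

lemma op_psd {ι : Type} [Fintype ι] (v : ι → ℂ) : (op v).PosSemidef :=
  posSemidef_vecMulVec_self_star v

lemma tr_op {ι : Type} [Fintype ι] (M : Matrix ι ι ℂ) (v : ι → ℂ) :
    (M * op v).trace = star v ⬝ᵥ M *ᵥ v := by
  simp only [op, trace, diag, mul_apply, vecMulVec_apply, dotProduct, mulVec, Finset.mul_sum]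
  refine Finset.sum_congr rfl fun i _ => Finset.sum_congr rfl fun j _ => by ring

lemma op_state (v : Fin d → ℂ) (h : star v ⬝ᵥ v = 1) : IsState (op v) :=
  ⟨op_psd v, by simpa [h] using tr_op 1 v⟩

lemma tr1 (τ : Op2 d) (A : Op d) : (τ * A ⊗ₖ (1 : Op d)).trace = (m1 τ * A).trace := by
  simp only [trace, diag, mul_apply, Fintype.sum_prod_type, kroneckerMap_apply, one_apply, m1,
    of_apply, Finset.sum_mul, mul_ite, mul_one, mul_zero, Finset.sum_ite_eq', Finset.mem_univ, if_true]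
  exact Finset.sum_congr rfl fun i _ => Finset.sum_comm

lemma tr2 (τ : Op2 d) (A : Op d) : (τ * (1 : Op d) ⊗ₖ A).trace = (m2 τ * A).trace := by
  simp only [trace, diag, mul_apply, Fintype.sum_prod_type_right, kroneckerMap_apply, one_apply, m2,
    of_apply, Finset.sum_mul, mul_ite, ite_mul, one_mul, zero_mul, mul_zero, Finset.sum_ite_eq',
    Finset.mem_univ, if_true]
  exact Finset.sum_congr rfl fun i _ => Finset.sum_comm

lemma cost_nonneg (H : Fin N → Op d) (hH : ∀ n, (H n).IsHermitian) (τ : Op2 d) (h : τ.PosSemidef) :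
    0 ≤ cost H τ := by
  refine mul_nonneg (by norm_num) (Finset.sum_nonneg fun n _ => ?_)
  set K := (H n)ᵀ ⊗ₖ (1 : Op d) - (1 : Op d) ⊗ₖ H n with hK
  have e : Kᴴ = K := by
    rw [hK, conjTranspose_sub, conjTranspose_kronecker, conjTranspose_kronecker, conjTranspose_one,
      (hH n).eq, (hH n).transpose.eq]
  have := (Complex.le_def.1 (h.conjTranspose_mul_mul_same K).trace_nonneg).1
  rwa [e, trace_mul_cycle, trace_mul_comm, ← pow_two] at this

lemma W_nonneg (H : Fin N → Op d) (hH : ∀ n, (H n).IsHermitian) (ρ σ : Op d) : 0 ≤ W H ρ σ :=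
  Real.sInf_nonneg (by rintro c ⟨τ, h, -, -, rfl⟩; exact cost_nonneg H hH τ h.1)

lemma W_le (H : Fin N → Op d) (hH : ∀ n, (H n).IsHermitian) (ρ σ : Op d) (τ : Op2 d)
    (h : IsState τ) (h1 : m1 τ = ρᵀ) (h2 : m2 τ = σ) : W H ρ σ ≤ cost H τ :=
  csInf_le ⟨0, by rintro c ⟨τ, h, -, -, rfl⟩; exact cost_nonneg H hH τ h.1⟩ ⟨τ, h, h1, h2, rfl⟩

lemma prod_ok {ρ σ : Op d} (h1 : IsState ρ) (h2 : IsState σ) :
    IsState (ρᵀ ⊗ₖ σ) ∧ m1 (ρᵀ ⊗ₖ σ) = ρᵀ ∧ m2 (ρᵀ ⊗ₖ σ) = σ := by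
  refine ⟨⟨h1.1.transpose.kronecker h2.1, by rw [trace_kronecker, trace_transpose, h1.2, h2.2, one_mul]⟩,
    ?_, ?_⟩
  · ext i j
    have := h2.2
    simp only [trace, diag] at this
    simp [m1, ← Finset.mul_sum, this]
  · ext i j
    have := h1.2
    simp only [trace, diag] at this
    simp [m2, ← Finset.sum_mul, this]

lemma cost_eq (H : Fin N → Op d) (τ : Op2 d) : cost H τ = 1 / 2 * ∑ n,
    ((m1 τ * ((H n)ᵀ * (H n)ᵀ)).trace.re + (m2 τ * (H n * H n)).trace.re -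
      2 * (τ * (H n)ᵀ ⊗ₖ H n).trace.re) := by
  unfold cost
  congr 1
  refine Finset.sum_congr rfl fun n _ => ?_
  simp only [pow_two, mul_sub, sub_mul, ← mul_kronecker_mul, Matrix.mul_one, Matrix.one_mul,
    trace_sub, sub_re, tr1, tr2]
  ring

lemma factor (τ : Op2 d) (h : IsState τ) (P : Op d) (hP : Pᴴ = P) (hP2 : P * P = P)
    (ht : P.trace = 1) (h1 : m1 τ = P) (A B : Op d) (a : ℂ) (hA : P * A * P = a • P) :
    (τ * A ⊗ₖ B).trace = a * (m2 τ * B).trace := by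
  set R : Op2 d := P ⊗ₖ (1 : Op d) with hR
  have R1 : Rᴴ = R := by rw [hR, conjTranspose_kronecker, hP, conjTranspose_one]
  have R2 : R * R = R := by rw [hR, ← mul_kronecker_mul, hP2, Matrix.mul_one]
  have Q1 : (1 - R)ᴴ = 1 - R := by rw [conjTranspose_sub, conjTranspose_one, R1]
  have Q2 : (1 - R) * (1 - R) = 1 - R := by simp [mul_sub, sub_mul, R2]
  have z : (1 - R)ᴴ * τ * (1 - R) = 0 := by
    rw [← (h.1.conjTranspose_mul_mul_same _).trace_eq_zero_iff, trace_mul_cycle, Q1, Q2,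
      trace_mul_comm, mul_sub, Matrix.mul_one, trace_sub, hR, tr1, h1, hP2, ht, h.2, sub_self]
  have z2 : τ * (1 - R) = 0 := by
    ext i j
    have e : star (fun k => (1 - R) k j) ⬝ᵥ τ *ᵥ (fun k => (1 - R) k j) = 0 := by
      have := congrFun (congrFun z j) j
      rw [Matrix.mul_assoc] at this
      simpa only [mul_apply, dotProduct, mulVec, conjTranspose_apply, Pi.star_apply,
        Matrix.zero_apply]
        using this
    exact congrFun ((h.1.dotProduct_mulVec_zero_iff _).1 e) i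
  have r1 : τ * R = τ := by rw [mul_sub, Matrix.mul_one, sub_eq_zero] at z2; exact z2.symm
  have r2 : R * τ = τ := by
    have := congrArg conjTranspose r1
    rwa [conjTranspose_mul, R1, h.1.isHermitian.eq] at this
  calc (τ * A ⊗ₖ B).trace = (R * τ * R * A ⊗ₖ B).trace := by rw [r2, r1]
    _ = (τ * (R * A ⊗ₖ B * R)).trace := by
        rw [Matrix.mul_assoc, Matrix.mul_assoc, trace_mul_comm]
        simp only [Matrix.mul_assoc]
    _ = a * (τ * R * (1 : Op d) ⊗ₖ B).trace := by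
        rw [hR, ← mul_kronecker_mul, ← mul_kronecker_mul, hA, smul_kronecker, Matrix.mul_smul,
          trace_smul, Matrix.mul_assoc τ, ← mul_kronecker_mul]
        simp
    _ = _ := by rw [r1, tr2]

lemma op_sand (u : Fin d → ℂ) (A : Op d) : op u * A * op u = (star u ⬝ᵥ A *ᵥ u) • op u := by
  ext i j
  simp only [op, mul_apply, vecMulVec_apply, Matrix.smul_apply, dotProduct, mulVec, smul_eq_mul,
    Finset.sum_mul, Finset.mul_sum]
  rw [Finset.sum_comm]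
  exact Finset.sum_congr rfl fun k _ => Finset.sum_congr rfl fun l _ => by ring

lemma op_T (u : Fin d → ℂ) : (op u)ᵀ = op (star u) := by
  ext i j; simp [op, vecMulVec_apply, mul_comm]

lemma diag0 {m : ℕ} {p : Fin m → ℝ} (hp : ∀ k, 0 < p k) {Ψ : Fin m → Fin d → ℂ} {ρ : Op d}
    (h : ∑ k, (p k : ℂ) • op (Ψ k) = ρ) (i : Fin d) (hi : ρ i i = 0) (k : Fin m) : Ψ k i = 0 := by
  have e : ∑ k, p k * normSq (Ψ k i) = 0 := by
    have := congrArg (fun M : Op d => (M i i).re) h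
    simpa [Matrix.sum_apply, op, vecMulVec_apply, hi, normSq_apply] using this
  have := (Finset.sum_eq_zero_iff_of_nonneg fun k _ =>
    mul_nonneg (hp k).le (normSq_nonneg _)).1 e k (Finset.mem_univ _)
  exact normSq_eq_zero.1 ((mul_eq_zero.1 this).resolve_left (hp k).ne')

end gen

def H1 : Op 4 := !![2, 0, 0, 0; 0, -2, 0, 0; 0, 0, 0, 1; 0, 0, 1, 0]
def H2 : Op 4 := !![0, 1, 0, 0; 1, 0, 0, 0; 0, 0, 2, 0; 0, 0, 0, -2]
def H : Fin 2 → Op 4 := ![H1, H2]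
noncomputable def rho : Op 4 := !![1 / 2, 0, 0, 0; 0, 1 / 2, 0, 0; 0, 0, 0, 0; 0, 0, 0, 0]
noncomputable def sig : Op 4 := !![0, 0, 0, 0; 0, 0, 0, 0; 0, 0, 1 / 2, 0; 0, 0, 0, 1 / 2]

lemma T1 : H1ᵀ = H1 := by ext i j; fin_cases i <;> fin_cases j <;> simp [H1]
lemma T2 : H2ᵀ = H2 := by ext i j; fin_cases i <;> fin_cases j <;> simp [H2]

lemma hH : ∀ n, (H n).IsHermitian := by
  intro n
  fin_cases n <;> ext i j <;> fin_cases i <;> fin_cases j <;> simp [H, H1, H2, conjTranspose_apply]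

lemma sq5 : H1 * H1 + H2 * H2 = (5 : ℂ) • (1 : Op 4) := by
  ext i j; fin_cases i <;> fin_cases j <;> simp [H1, H2, mul_apply, Fin.sum_univ_four] <;> norm_num

lemma cost5 (τ : Op2 4) (h1 : (m1 τ).trace = 1) (h2 : (m2 τ).trace = 1) :
    cost H τ = 5 - (τ * H1 ⊗ₖ H1).trace.re - (τ * H2 ⊗ₖ H2).trace.re := by
  have e : ∀ M : Op 4, M.trace = 1 → (M * (H1 * H1)).trace.re + (M * (H2 * H2)).trace.re = 5 := by
    intro M hM
    rw [← add_re, ← trace_add, ← mul_add, sq5, Matrix.mul_smul, Matrix.mul_one, trace_smul, hM]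
    simp
  rw [cost_eq]
  simp only [Fin.sum_univ_two, H, cons_val_zero, cons_val_one, T1, T2]
  linarith [e _ h1, e _ h2]

lemma pure_ge (u v : Fin 4 → ℂ) (hu : star u ⬝ᵥ u = 1) (hv : star v ⬝ᵥ v = 1) (u2 : u 2 = 0)
    (u3 : u 3 = 0) (v0 : v 0 = 0) (v1 : v 1 = 0) : 3 ≤ W H (op u) (op v) := by
  obtain ⟨q1, q2, q3⟩ := prod_ok (op_state u hu) (op_state v hv)
  refine le_csInf ⟨_, _, q1, q2, q3, rfl⟩ ?_
  rintro c ⟨τ, h, h1, h2, rfl⟩
  have hu' : star (star u) ⬝ᵥ star u = 1 := by rw [star_star, dotProduct_comm, hu]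
  rw [op_T] at h1
  have f := fun A B => factor τ h (op (star u)) (op_psd _).isHermitian.eq
    (by have := op_sand (star u) 1; rwa [Matrix.mul_one, one_mulVec, hu', one_smul] at this)
    (op_state _ hu').2 h1 A B _ (op_sand (star u) A)
  rw [cost5 τ (by rw [h1]; exact (op_state _ hu').2) (by rw [h2]; exact (op_state _ hv).2), f, f, h2,
    trace_mul_comm, tr_op, trace_mul_comm (op v), tr_op]
  have a := congrArg re hu
  have b := congrArg re hv
  simp [dotProduct, Fin.sum_univ_four, u2, u3, v0, v1] at a b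
  simp [dotProduct, mulVec, Fin.sum_univ_four, H1, H2, u2, u3, v0, v1]
  generalize (u 0).re = a0 at *
  generalize (u 0).im = a1 at *
  generalize (u 1).re = a2 at *
  generalize (u 1).im = a3 at *
  generalize (v 2).re = b0 at *
  generalize (v 2).im = b1 at *
  generalize (v 3).re = b2 at *
  generalize (v 3).im = b3 at *
  have c1 : (a0 * a0 + a1 * a1 - (a2 * a2 + a3 * a3)) ^ 2 + (2 * (a0 * a2 + a1 * a3)) ^ 2 ≤ 1 := by
    have : (a0 * a0 + a1 * a1 + (a2 * a2 + a3 * a3)) ^ 2 = 1 := by rw [a]; norm_num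
    nlinarith [sq_nonneg (a0 * a3 - a1 * a2)]
  have c2 : (b0 * b0 + b1 * b1 - (b2 * b2 + b3 * b3)) ^ 2 + (2 * (b0 * b2 + b1 * b3)) ^ 2 ≤ 1 := by
    have : (b0 * b0 + b1 * b1 + (b2 * b2 + b3 * b3)) ^ 2 = 1 := by rw [b]; norm_num
    nlinarith [sq_nonneg (b0 * b3 - b1 * b2)]
  linarith [sq_nonneg ((a0 * a0 + a1 * a1 - (a2 * a2 + a3 * a3)) - 2 * (b0 * b2 + b1 * b3)),
    sq_nonneg ((b0 * b0 + b1 * b1 - (b2 * b2 + b3 * b3)) - 2 * (a0 * a2 + a1 * a3))]

def e (i : Fin 4) : Fin 4 → ℂ := Pi.single i 1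

lemma e_unit (i : Fin 4) : star (e i) ⬝ᵥ e i = 1 := by simp [e]

lemma rho_dec : ∑ k : Fin 2, (((1 / 2 : ℝ) : ℝ) : ℂ) • op (![e 0, e 1] k) = rho := by
  ext i j; fin_cases i <;> fin_cases j <;> simp [rho, op, e, vecMulVec_apply, Fin.sum_univ_two]

lemma sig_dec : ∑ k : Fin 2, (((1 / 2 : ℝ) : ℝ) : ℂ) • op (![e 2, e 3] k) = sig := by
  ext i j; fin_cases i <;> fin_cases j <;> simp [sig, op, e, vecMulVec_apply, Fin.sum_univ_two]

lemma self_le (i : Fin 4) (hi : (star (e i) ⬝ᵥ H1 *ᵥ e i) ^ 2 + (star (e i) ⬝ᵥ H2 *ᵥ e i) ^ 2 = 4) :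
    W H (op (e i)) (op (e i)) ≤ 1 := by
  have s := op_state _ (e_unit i)
  obtain ⟨q1, q2, q3⟩ := prod_ok s s
  refine (W_le H hH _ _ _ q1 q2 q3).trans (le_of_eq ?_)
  have t : (op (e i))ᵀ = op (e i) := by rw [op_T]; simp [e]
  rw [cost5 _ (by rw [q2, trace_transpose, s.2]) (by rw [q3, s.2]), ← mul_kronecker_mul,
    ← mul_kronecker_mul, trace_kronecker, trace_kronecker, t, trace_mul_comm, tr_op,
    trace_mul_comm (op _), tr_op, ← pow_two, ← pow_two, sub_sub, ← add_re, hi]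
  norm_num

lemma sep_bdd (ρ σ : Op 4) : BddBelow {c | ∃ (m : ℕ) (p : Fin m → ℝ) (Ψ Φ : Fin m → Fin 4 → ℂ),
    (∀ k, 0 < p k) ∧ ∑ k, p k = 1 ∧
    (∀ k, star (Ψ k) ⬝ᵥ Ψ k = 1) ∧ (∀ k, star (Φ k) ⬝ᵥ Φ k = 1) ∧
    ∑ k, (p k : ℂ) • op (Ψ k) = ρ ∧ ∑ k, (p k : ℂ) • op (Φ k) = σ ∧
    c = ∑ k, p k * W H (op (Ψ k)) (op (Φ k))} := by
  refine ⟨0, ?_⟩
  rintro c ⟨m, p, Ψ, Φ, hp, -, -, -, -, -, rfl⟩
  exact Finset.sum_nonneg fun k _ => mul_nonneg (hp k).le (W_nonneg H hH _ _)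

lemma s11 : Wsep H rho rho ≤ 1 := by
  refine (csInf_le (sep_bdd _ _) ⟨2, fun _ => 1 / 2, ![e 0, e 1], ![e 0, e 1], by simp, by simp,
    fun k => by fin_cases k <;> exact e_unit _, fun k => by fin_cases k <;> exact e_unit _,
    rho_dec, rho_dec, rfl⟩).trans ?_
  have a := self_le 0 (by simp [e, H1, H2]; norm_num)
  have b := self_le 1 (by simp [e, H1, H2]; norm_num)
  simp only [Fin.sum_univ_two, cons_val_zero, cons_val_one]
  linarith

lemma s22 : Wsep H sig sig ≤ 1 := by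
  refine (csInf_le (sep_bdd _ _) ⟨2, fun _ => 1 / 2, ![e 2, e 3], ![e 2, e 3], by simp, by simp,
    fun k => by fin_cases k <;> exact e_unit _, fun k => by fin_cases k <;> exact e_unit _,
    sig_dec, sig_dec, rfl⟩).trans ?_
  have a := self_le 2 (by simp [e, H1, H2]; norm_num)
  have b := self_le 3 (by simp [e, H1, H2]; norm_num)
  simp only [Fin.sum_univ_two, cons_val_zero, cons_val_one]
  linarith

lemma s12 : 3 ≤ Wsep H rho sig := by
  refine le_csInf ⟨_, 2, fun _ => 1 / 2, ![e 0, e 1], ![e 2, e 3], by simp, by simp,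
    fun k => by fin_cases k <;> exact e_unit _, fun k => by fin_cases k <;> exact e_unit _,
    rho_dec, sig_dec, rfl⟩ ?_
  rintro c ⟨m, p, Ψ, Φ, hp, h1, hu, hv, hr, hs, rfl⟩
  calc (3 : ℝ) = ∑ k, p k * 3 := by rw [← Finset.sum_mul, h1, one_mul]
    _ ≤ _ := Finset.sum_le_sum fun k _ => mul_le_mul_of_nonneg_left (pure_ge _ _ (hu k) (hv k)
      (diag0 hp hr 2 (by simp [rho]) k) (diag0 hp hr 3 (by simp [rho]) k)
      (diag0 hp hs 0 (by simp [sig]) k) (diag0 hp hs 1 (by simp [sig]) k)) (hp k).le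

noncomputable def g : Fin 4 × Fin 4 → ℂ := fun p =>
  !![0, 0, 1 / 2, 1 / 2; 0, 0, 1 / 2, -1 / 2; 0, 0, 0, 0; 0, 0, 0, 0] p.1 p.2

lemma g1 : m1 (op g) = rhoᵀ := by
  ext i j; fin_cases i <;> fin_cases j <;>
    simp [m1, rho, op, g, vecMulVec_apply, Fin.sum_univ_four, map_ofNat] <;> norm_num

lemma g2 : m2 (op g) = sig := by
  ext i j; fin_cases i <;> fin_cases j <;>
    simp [m2, sig, op, g, vecMulVec_apply, Fin.sum_univ_four, map_ofNat] <;> norm_num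

lemma rho_state : IsState rho :=
  ⟨rho_dec ▸ posSemidef_sum _ fun k _ => (op_psd _).smul (Complex.zero_le_real.2 (by norm_num)),
    by simp [rho, trace, Fin.sum_univ_four]; norm_num⟩

lemma sig_state : IsState sig :=
  ⟨sig_dec ▸ posSemidef_sum _ fun k _ => (op_psd _).smul (Complex.zero_le_real.2 (by norm_num)),
    by simp [sig, trace, Fin.sum_univ_four]; norm_num⟩

lemma w12 : W H rho sig ≤ 1 := by
  refine (W_le H hH _ _ (op g) ⟨op_psd _, ?_⟩ g1 g2).trans (le_of_eq ?_)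
  · simp [op, g, trace, vecMulVec_apply, Fintype.sum_prod_type, Fin.sum_univ_four, map_ofNat]
    norm_num
  · rw [cost5 _ (by rw [g1, trace_transpose, rho_state.2]) (by rw [g2, sig_state.2]),
      trace_mul_comm, tr_op, trace_mul_comm (op g), tr_op]
    simp [g, H1, H2, dotProduct, mulVec, Fintype.sum_prod_type, Fin.sum_univ_four, map_ofNat]
    norm_num

theorem result : ∃ (d N : ℕ) (H : Fin N → Op d) (ρ σ : Op d), (∀ n, (H n).IsHermitian) ∧
    IsState ρ ∧ IsState σ ∧ modi (W H) ρ σ < modi (Wsep H) ρ σ := by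
  refine ⟨4, 2, H, rho, sig, hH, rho_state, sig_state, ?_⟩
  simp only [modi]
  linarith [s11, s22, s12, w12, W_nonneg H hH rho rho, W_nonneg H hH sig sig]

end Pool.Agent.Results.MP_9a8b60_mp.SepDPT
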